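import Pool.Agent.Helper12.TU.DISP
import Pool.Agent.Helper62.TU.OP
import Pool.Agent.Helper83.TU.DG

/-!
# Module MOVE1 (MP_ed3816_nt): moving the first component

From a point `(g + ε, ε')` of a stable closed predicate, with `ε'` exactly of level `l ≤ m`, one can change
`ε` by an element of level `m` with any prescribed digit, without changing `ε'` modulo level `m + 1`.
-/

namespace GWA

section MOVE1

variable {K : Type} [NormedField K] [Algebra GaussianInt K] {π : GaussianInt}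

theorem LHU.move_mono (h : LHU K π) {d : K} {m n : ℕ} (hmn : m ≤ n) {P : E d}
    (hP : P ∈ nb π d n) : P ∈ nb π d m :=
  nbh_anti h.one_lt_inv.le d hmn hP

section res

variable {k : Type} [Field k] [Algebra GaussianInt k] {r : K → k}

theorem RMap.move_zero (hr : RMap K k r) : r 0 = 0 :=
  (hr.eq_zero 0 (by rw [norm_zero]; exact zero_le_one)).2 (by rw [norm_zero]; exact zero_lt_one)

theorem RMap.move_close (h : LHU K π) (hr : RMap K k r) {x y : K} (hx : ‖x‖ ≤ 1) (hy : ‖y‖ ≤ 1)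
    (hxy : ‖x - y‖ < 1) : r x = r y := by
  have h1 : r (y + (x - y)) = r y + r (x - y) :=
    hr.add y (x - y) hy ((h.norm_sub_le x y).trans (max_le hx hy))
  rw [(hr.eq_zero (x - y) hxy.le).2 hxy, add_zero, add_sub_cancel] at h1
  exact h1

theorem RMap.move_two (hr : RMap K k r) : r 2 = 2 := by
  have := hr.coe 2
  rwa [map_ofNat, map_ofNat] at this

theorem RMap.move_two_ne (h : LHU K π) (hr : RMap K k r) : (2 : k) ≠ 0 := by
  have h2 := h.norm_two h.odd
  intro h0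
  have h1 := (hr.eq_zero 2 h2.le).1 (by rw [hr.move_two, h0])
  rw [h2] at h1
  exact lt_irrefl _ h1

theorem RMap.move_half (h : LHU K π) (hr : RMap K k r) {x : K} (hx : ‖x‖ ≤ 1) :
    r (x / 2) = r x / 2 := by
  have h2 := h.norm_two h.odd
  have hne : (2 : K) ≠ 0 := by
    intro h0
    rw [h0, norm_zero] at h2
    exact zero_ne_one h2
  have h3 : ‖x / 2‖ ≤ 1 := by rw [norm_div, h2, div_one]; exact hx
  have h4 := hr.mul 2 (x / 2) h2.le h3
  rw [mul_div_cancel₀ _ hne, hr.move_two] at h4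
  rw [h4, mul_div_cancel_left₀ _ (RMap.move_two_ne h hr)]

end res

variable [NeZero (2 : K)] [DecidableEq K]
  {k : Type} [Field k] [Algebra GaussianInt k] {r : K → k}
  {A : (d : Kˣ) → E (d : K) → E (d : K) → Prop}

/-- a point near an ordinary point is ordinary, with the same residue -/
theorem LHU.move_ord (h : LHU K π) {d : Kˣ} {P ε : E (d : K)} (hP : Ord P)
    (hε : ε ∈ nb π (d : K) 0) :
    Ord (P + ε) ∧ ‖nx (P + ε)‖ ≤ 1 ∧ ‖nx (P + ε) - nx P‖ < 1 := by
  obtain ⟨h1, h2, h3⟩ := hP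
  have hP0 : P ∉ nb π (d : K) 0 := by
    rw [h.mem_nb_zero_iff d.ne_zero]
    rintro (h4 | h4)
    · rw [h4, nx_zero] at h2
      have h5 : ff (0 : K) = 0 := by unfold ff; ring
      rw [h5, norm_zero] at h2
      exact zero_ne_one h2
    · linarith
  have hsub : P + ε - P ∈ nb π (d : K) 0 := by
    rwa [add_sub_cancel_left]
  obtain ⟨_, _, h5, h6⟩ := h.res_conv h.odd d.ne_zero hP0 hsub
  refine ⟨⟨h5, ?_, ?_⟩, h5, h6⟩
  · set x := nx P with hx
    set z := nx (P + ε) with hz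
    have e1 : ff z = ff x + (z - x) * (z ^ 2 + z * x + x ^ 2 - 1) := by unfold ff; ring
    have e2 : ‖z ^ 2 + z * x + x ^ 2 - 1‖ ≤ 1 := by
      refine (h.norm_sub_le _ _).trans (max_le ((h.ultra _ _).trans (max_le
        ((h.ultra _ _).trans (max_le ?_ ?_)) ?_)) (by rw [norm_one]))
      · rw [norm_pow]; exact pow_le_one₀ (norm_nonneg _) h5
      · rw [norm_mul]; exact mul_le_one₀ h5 (norm_nonneg _) h1
      · rw [norm_pow]; exact pow_le_one₀ (norm_nonneg _) h1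
    have e3 : ‖(z - x) * (z ^ 2 + z * x + x ^ 2 - 1)‖ < 1 := by
      rw [norm_mul]
      exact lt_of_le_of_lt (mul_le_of_le_one_right (norm_nonneg _) e2) h6
    rw [e1, h.norm_sum_eq (by rw [h2]; exact e3), h2]
  · have e1 : 3 * nx (P + ε) - 1 = (3 * nx P - 1) + 3 * (nx (P + ε) - nx P) := by ring
    have e2 : ‖3 * (nx (P + ε) - nx P)‖ < 1 := by
      rw [norm_mul]
      exact lt_of_le_of_lt (mul_le_of_le_one_left (norm_nonneg _) (h.norm_ofNat_le 3)) h6
    rw [e1, h.norm_sum_eq (by rw [h3]; exact e2), h3]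

/-- one displacement at the multiple `u g` of the generator -/
theorem MSt.move1_gen (hA : MSt π A) (h : LHU K π) (hr : RMap K k r) {d : Kˣ}
    (hd : ‖(d : K)‖ = 1) {g : E (d : K)} {n : GaussianInt} (hg : Gen π d g n)
    {u v : GaussianInt} (huv : n ∣ u * v - 1) (hu : Ord (u • g)) {l m : ℕ} (hlm : l ≤ m)
    (α : GaussianInt) {ε ε' : E (d : K)} (hε : ε ∈ nb π (d : K) 0) (hl : ε' ∈ nb π (d : K) l)
    (hεA : A d (g + ε) ε') :
    ∃ ε₁ ε₁' : E (d : K), A d (g + ε₁) ε₁' ∧ ε₁ - ε ∈ nb π (d : K) m ∧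
      dg r π m (ε₁ - ε) =
        algebraMap GaussianInt k α * r (3 * nx (u • g) - 1) * dg r π l ε' / 2 ∧
      ε₁' - ε' ∈ nb π (d : K) (m + 1) := by
  have hp0 := h.norm_pi_pos
  have hp1 := h.norm_pi
  have hl0 : ε' ∈ nb π (d : K) 0 := h.move_mono (Nat.zero_le _) hl
  -- the point `(u g + ε, ε')`
  have hA1 : A d (u • g + ε) ε' := by
    have := hA.op h hg.ndvd hg.tors hε hl0 hεA u 0 1 0 0 1
    simpa using this
  obtain ⟨hord, hx1, hx2⟩ := h.move_ord hu hε
  set b : GaussianInt := π ^ (m - l) * α with hb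
  obtain ⟨P', Q', hA2, hP', hQ', e1, e2⟩ := h.disp hA hd hord hl0 b hA1
  set p : K := algebraMap GaussianInt K π with hp
  have hτ : ‖tt ε'‖ ≤ ‖p‖ ^ (l + 1) := (h.mem_nb_unit hd hl0 l).1 hl
  have hα : ‖algebraMap GaussianInt K α‖ ≤ 1 := h.norm_O_le α
  have hbn : ‖algebraMap GaussianInt K b‖ * ‖tt ε'‖ ≤ ‖p‖ ^ (m + 1) := by
    rw [hb, map_mul, map_pow, norm_mul, norm_pow]
    calc ‖p‖ ^ (m - l) * ‖algebraMap GaussianInt K α‖ * ‖tt ε'‖
        ≤ ‖p‖ ^ (m - l) * 1 * ‖p‖ ^ (l + 1) := by gcongr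
      _ = ‖p‖ ^ (m + 1) := by
        rw [mul_one, ← pow_add]
        congr 1
        omega
  have hbn2 : ‖p‖ * (‖algebraMap GaussianInt K b‖ * ‖tt ε'‖) ≤ ‖p‖ ^ (m + 2) := by
    calc ‖p‖ * (‖algebraMap GaussianInt K b‖ * ‖tt ε'‖) ≤ ‖p‖ * ‖p‖ ^ (m + 1) := by gcongr
      _ = ‖p‖ ^ (m + 2) := by ring
  have hQm : Q' - ε' ∈ nb π (d : K) (m + 1) := (h.mem_nb_unit hd hQ' (m + 1)).2 (e2.trans hbn2)
  set x : K := nx (u • g + ε) with hx
  have h2 := h.norm_two h.odd
  have h31 : ‖3 * x - 1‖ ≤ 1 := hord.2.2.le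
  have hhalf : ‖(3 * x - 1) / 2‖ ≤ 1 := by rw [norm_div, h2, div_one]; exact h31
  have hξ : ‖tt (P' - (u • g + ε))‖ ≤ ‖p‖ ^ (m + 1) := by
    have e3 : tt (P' - (u • g + ε)) =
        (tt (P' - (u • g + ε)) - (3 * x - 1) / 2 * (algebraMap GaussianInt K b * tt ε')) +
          (3 * x - 1) / 2 * (algebraMap GaussianInt K b * tt ε') := by ring
    rw [e3]
    refine (h.ultra _ _).trans (max_le ?_ ?_)
    · refine e1.trans (hbn2.trans ?_)
      exact pow_le_pow_of_le_one hp0.le hp1.le (by omega)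
    · rw [norm_mul, norm_mul]
      exact (mul_le_of_le_one_left (by positivity) hhalf).trans hbn
  have hξm : P' - (u • g + ε) ∈ nb π (d : K) m := (h.mem_nb_unit hd hP' m).2 hξ
  -- the digit
  have hpm : 0 < ‖p‖ ^ (m + 1) := by positivity
  have hpne : p ≠ 0 := h.pi_ne
  have hdig : dg r π m (P' - (u • g + ε)) =
      algebraMap GaussianInt k α * r (3 * nx (u • g) - 1) * dg r π l ε' / 2 := by
    unfold dg
    rw [← hp]
    set X : K := tt (P' - (u • g + ε)) / p ^ (m + 1) with hX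
    set Z : K := tt ε' / p ^ (l + 1) with hZ
    have hX1 : ‖X‖ ≤ 1 := by
      rw [hX, norm_div, norm_pow]
      exact div_le_one_of_le₀ hξ hpm.le
    have hZ1 : ‖Z‖ ≤ 1 := by
      rw [hZ, norm_div, norm_pow]
      exact div_le_one_of_le₀ hτ (by positivity)
    have hαZ : ‖algebraMap GaussianInt K α * Z‖ ≤ 1 := by
      rw [norm_mul]; exact mul_le_one₀ hα (norm_nonneg _) hZ1
    have hY1 : ‖(3 * x - 1) / 2 * (algebraMap GaussianInt K α * Z)‖ ≤ 1 := by
      rw [norm_mul]; exact mul_le_one₀ hhalf (norm_nonneg _) hαZ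
    have hpml : p ^ (m + 1) = p ^ (m - l) * p ^ (l + 1) := by
      rw [← pow_add]
      congr 1
      omega
    have hXY : X - (3 * x - 1) / 2 * (algebraMap GaussianInt K α * Z) =
        (tt (P' - (u • g + ε)) - (3 * x - 1) / 2 * (algebraMap GaussianInt K b * tt ε')) /
          p ^ (m + 1) := by
      rw [hX, hZ, hb, map_mul, map_pow, ← hp, hpml]
      field_simp
    have hXY1 : ‖X - (3 * x - 1) / 2 * (algebraMap GaussianInt K α * Z)‖ < 1 := by
      rw [hXY, norm_div, norm_pow, div_lt_one hpm]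
      refine lt_of_le_of_lt (e1.trans hbn2) ?_
      exact pow_lt_pow_right_of_lt_one₀ hp0 hp1 (by omega)
    rw [RMap.move_close h hr hX1 hY1 hXY1, hr.mul _ _ hhalf hαZ, hr.mul _ _ hα hZ1,
      RMap.move_half h hr h31, hr.coe]
    have hr3 : r (3 * x - 1) = r (3 * nx (u • g) - 1) := by
      refine RMap.move_close h hr h31 hu.2.2.le ?_
      have e4 : 3 * x - 1 - (3 * nx (u • g) - 1) = 3 * (x - nx (u • g)) := by ring
      rw [e4, norm_mul]
      exact lt_of_le_of_lt (mul_le_of_le_one_left (norm_nonneg _) (h.norm_ofNat_le 3)) hx2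
    rw [hr3]
    ring
  -- back to `g`
  set ξ : E (d : K) := P' - (u • g + ε) with hξd
  have hξ0 : ξ ∈ nb π (d : K) 0 := h.move_mono (Nat.zero_le _) hξm
  have hsum : ε + ξ ∈ nb π (d : K) 0 := h.nb_add d.ne_zero 0 hε hξ0
  have hQ0 : Q' ∈ nb π (d : K) 0 := by
    have := h.nb_add d.ne_zero 0 (h.move_mono (Nat.zero_le _) hQm) hl0
    rwa [sub_add_cancel] at this
  have hA3 : A d (u • g + (ε + ξ)) Q' := by
    have e5 : u • g + (ε + ξ) = P' := by rw [hξd]; abel
    rwa [e5]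
  have htors : n • (u • g) = 0 := by
    rw [smul_smul, mul_comm, ← smul_smul, hg.tors, smul_zero]
  have hA4 := hA.op h hg.ndvd htors hsum hQ0 hA3 v 0 1 0 0 1
  have hvu : v • (u • g) = g := by
    obtain ⟨w, hw⟩ := huv
    have e6 : v * u = 1 + w * n := by
      have : u * v - 1 = n * w := hw
      linear_combination this
    rw [smul_smul, e6, add_smul, one_smul, ← smul_smul, hg.tors, smul_zero, add_zero]
  refine ⟨ε + ξ, Q', ?_, ?_, ?_, hQm⟩
  · simpa [hvu] using hA4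
  · rwa [add_sub_cancel_left]
  · rwa [add_sub_cancel_left]

/-- moving the first component -/
theorem MSt.move1 (hA : MSt π A) (h : LHU K π) (hr : RMap K k r) {d : Kˣ}
    (hd : ‖(d : K)‖ = 1) {g : E (d : K)} {n : GaussianInt} (hg : Gen π d g n)
    (hs : SpanTop r d g n) {ε ε' : E (d : K)} (hε : ε ∈ nb π (d : K) 0) {l m : ℕ}
    (hl : ε' ∈ nb π (d : K) l) (hl' : ε' ∉ nb π (d : K) (l + 1)) (hlm : l ≤ m) (c : k)
    (hεA : A d (g + ε) ε') :
    ∃ ε₁ ε₁' : E (d : K), A d (g + ε₁) ε₁' ∧ ε₁ - ε ∈ nb π (d : K) m ∧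
      dg r π m (ε₁ - ε) = c ∧ ε₁' - ε' ∈ nb π (d : K) (m + 1) := by
  have h2 := RMap.move_two_ne h hr
  have key : ∀ w ∈ Submodule.span GaussianInt {c : k | ∃ u v : GaussianInt, n ∣ u * v - 1 ∧
      Ord (u • g) ∧ c = r (3 * nx (u • g) - 1)},
      ∀ (α : GaussianInt) (ε ε' : E (d : K)), ε ∈ nb π (d : K) 0 → ε' ∈ nb π (d : K) l →
        A d (g + ε) ε' →
        ∃ ε₁ ε₁' : E (d : K), A d (g + ε₁) ε₁' ∧ ε₁ - ε ∈ nb π (d : K) m ∧
          dg r π m (ε₁ - ε) = algebraMap GaussianInt k α * w * dg r π l ε' / 2 ∧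
          ε₁' - ε' ∈ nb π (d : K) (m + 1) := by
    intro w hw
    induction hw using Submodule.span_induction with
    | mem w hw =>
      obtain ⟨u, v, huv, hu, rfl⟩ := hw
      intro α ε ε' h1 h3 h4
      exact hA.move1_gen h hr hd hg huv hu hlm α h1 h3 h4
    | zero =>
      intro α ε ε' h1 h3 h4
      refine ⟨ε, ε', h4, ?_, ?_, ?_⟩
      · rw [sub_self]; exact zero_mem_nbh _ _ _
      · rw [sub_self, (dg_eq_zero h hr hd (zero_mem_nbh _ _ _)).2 (zero_mem_nbh _ _ _)]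
        ring
      · rw [sub_self]; exact zero_mem_nbh _ _ _
    | add w₁ w₂ _ _ ih1 ih2 =>
      intro α ε ε' h1 h3 h4
      obtain ⟨ε₁, ε₁', a1, a2, a3, a4⟩ := ih1 α ε ε' h1 h3 h4
      have b1 : ε₁ ∈ nb π (d : K) 0 := by
        have := h.nb_add d.ne_zero 0 (h.move_mono (Nat.zero_le _) a2) h1
        rwa [sub_add_cancel] at this
      have b2 : ε₁' ∈ nb π (d : K) l := by
        have := h.nb_add d.ne_zero l (h.move_mono (by omega) a4) h3
        rwa [sub_add_cancel] at this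
      have b3 : dg r π l ε₁' = dg r π l ε' := by
        have c1 : ε₁' - ε' ∈ nb π (d : K) (l + 1) := h.move_mono (by omega) a4
        have c2 : ε₁' - ε' ∈ nb π (d : K) l := h.move_mono (by omega) a4
        have c3 := dg_add h hr hd c2 h3
        rw [sub_add_cancel, (dg_eq_zero h hr hd c2).2 c1, zero_add] at c3
        exact c3
      obtain ⟨ε₂, ε₂', d1, d2, d3, d4⟩ := ih2 α ε₁ ε₁' b1 b2 a1
      refine ⟨ε₂, ε₂', d1, ?_, ?_, ?_⟩
      · have := h.nb_add d.ne_zero m d2 a2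
        rwa [sub_add_sub_cancel] at this
      · have := dg_add h hr hd d2 a2
        rw [sub_add_sub_cancel, d3, a3, b3] at this
        rw [this]
        ring
      · have := h.nb_add d.ne_zero (m + 1) d4 a4
        rwa [sub_add_sub_cancel] at this
    | smul a w _ ih =>
      intro α ε ε' h1 h3 h4
      obtain ⟨ε₁, ε₁', a1, a2, a3, a4⟩ := ih (α * a) ε ε' h1 h3 h4
      refine ⟨ε₁, ε₁', a1, a2, ?_, a4⟩
      rw [a3, map_mul, Algebra.smul_def]
      ring
  have hdg : dg r π l ε' ≠ 0 := fun h0 => hl' ((dg_eq_zero h hr hd hl).1 h0)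
  have hmem : 2 * c / dg r π l ε' ∈ Submodule.span GaussianInt {c : k | ∃ u v : GaussianInt,
      n ∣ u * v - 1 ∧ Ord (u • g) ∧ c = r (3 * nx (u • g) - 1)} := by
    have : Submodule.span GaussianInt {c : k | ∃ u v : GaussianInt,
      n ∣ u * v - 1 ∧ Ord (u • g) ∧ c = r (3 * nx (u • g) - 1)} = ⊤ := hs
    rw [this]
    exact Submodule.mem_top
  obtain ⟨ε₁, ε₁', a1, a2, a3, a4⟩ := key _ hmem 1 ε ε' hε hl hεA
  refine ⟨ε₁, ε₁', a1, a2, ?_, a4⟩
  rw [a3, map_one, one_mul, div_mul_cancel₀ _ hdg, mul_div_cancel_left₀ _ h2]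

end MOVE1

end GWA
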