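import Pool.Agent.Helper31.TU.MOVE1

/-!
# Module MOVE2 (MP_ed3816_nt): moving both components

Conjugating the move of the first component by integral unimodular matrices.
-/

namespace GWA

section MOVE2

variable {K : Type} [NormedField K] [Algebra GaussianInt K] [NeZero (2 : K)] [DecidableEq K]
  {π : GaussianInt} {k : Type} [Field k] [Algebra GaussianInt k] {r : K → k}
  {A : (d : Kˣ) → E (d : K) → E (d : K) → Prop}

/-- moving along one axis, after a unimodular change of coordinates: the matrix is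
`(a, b; c, e)` and its inverse is `(a', b'; c', e')` -/
theorem MSt.move_mat (hA : MSt π A) (h : LHU K π) (hr : RMap K k r) {d : Kˣ}
    (hd : ‖(d : K)‖ = 1) {g : E (d : K)} {n : GaussianInt} (hg : Gen π d g n)
    (hs : SpanTop r d g n) {ε ε' : E (d : K)} {l m : ℕ} (hl : ε ∈ nb π (d : K) l)
    (hl' : ε' ∈ nb π (d : K) l) (hlm : l ≤ m) (a b c e a' b' c' e' : GaussianInt)
    (m1 : a' * a + b' * c = 1) (m2 : a' * b + b' * e = 0) (m3 : c' * a + e' * c = 0)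
    (m4 : c' * b + e' * e = 1) (hM : c • ε + e • ε' ∉ nb π (d : K) (l + 1)) (t : k)
    (hεA : A d (g + ε) ε') :
    ∃ ε₁ ε₁' : E (d : K), A d (g + ε₁) ε₁' ∧ ε₁ - ε ∈ nb π (d : K) m ∧
      dg r π m (ε₁ - ε) = algebraMap GaussianInt k a' * t ∧ ε₁' - ε' ∈ nb π (d : K) m ∧
      dg r π m (ε₁' - ε') = algebraMap GaussianInt k c' * t := by
  have hε0 : ε ∈ nb π (d : K) 0 := h.move_mono (Nat.zero_le _) hl
  have hε0' : ε' ∈ nb π (d : K) 0 := h.move_mono (Nat.zero_le _) hl'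
  have hA1 : A d (g + (a • ε + b • ε')) (c • ε + e • ε') := by
    have := hA.op h hg.ndvd hg.tors hε0 hε0' hεA 1 0 a b c e
    simpa [add_assoc] using this
  have k1 : a • ε + b • ε' ∈ nb π (d : K) 0 :=
    h.nb_add d.ne_zero 0 (h.nb_smul d 0 a hε0) (h.nb_smul d 0 b hε0')
  have k2 : c • ε + e • ε' ∈ nb π (d : K) l :=
    h.nb_add d.ne_zero l (h.nb_smul d l c hl) (h.nb_smul d l e hl')
  obtain ⟨η, η', hA2, n1, n2, n3⟩ := hA.move1 h hr hd hg hs k1 k2 hM hlm t hA1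
  have n3' : η' - (c • ε + e • ε') ∈ nb π (d : K) m := h.move_mono (by omega) n3
  have n4 : dg r π m (η' - (c • ε + e • ε')) = 0 := (dg_eq_zero h hr hd n3').2 n3
  have q1 : η ∈ nb π (d : K) 0 := by
    have := h.nb_add d.ne_zero 0 (h.move_mono (Nat.zero_le _) n1) k1
    rwa [sub_add_cancel] at this
  have q2 : η' ∈ nb π (d : K) 0 := by
    have := h.nb_add d.ne_zero 0 (h.move_mono (Nat.zero_le _) n3') (h.move_mono (Nat.zero_le _) k2)
    rwa [sub_add_cancel] at this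
  have hA3 : A d (g + (a' • η + b' • η')) (c' • η + e' • η') := by
    have := hA.op h hg.ndvd hg.tors q1 q2 hA2 1 0 a' b' c' e'
    simpa [add_assoc] using this
  have s1 : a' • η + b' • η' - ε =
      a' • (η - (a • ε + b • ε')) + b' • (η' - (c • ε + e • ε')) := by
    have t1 : a' • (a • ε + b • ε') + b' • (c • ε + e • ε') = ε := by
      calc a' • (a • ε + b • ε') + b' • (c • ε + e • ε')
          = (a' * a + b' * c) • ε + (a' * b + b' * e) • ε' := by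
            simp only [smul_add, add_smul, mul_smul]; abel
        _ = ε := by rw [m1, m2, one_smul, zero_smul, add_zero]
    calc a' • η + b' • η' - ε = a' • η + b' • η' -
          (a' • (a • ε + b • ε') + b' • (c • ε + e • ε')) := by rw [t1]
      _ = _ := by rw [smul_sub, smul_sub]; abel
  have s2 : c' • η + e' • η' - ε' =
      c' • (η - (a • ε + b • ε')) + e' • (η' - (c • ε + e • ε')) := by
    have t1 : c' • (a • ε + b • ε') + e' • (c • ε + e • ε') = ε' := by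
      calc c' • (a • ε + b • ε') + e' • (c • ε + e • ε')
          = (c' * a + e' * c) • ε + (c' * b + e' * e) • ε' := by
            simp only [smul_add, add_smul, mul_smul]; abel
        _ = ε' := by rw [m3, m4, one_smul, zero_smul, zero_add]
    calc c' • η + e' • η' - ε' = c' • η + e' • η' -
          (c' • (a • ε + b • ε') + e' • (c • ε + e • ε')) := by rw [t1]
      _ = _ := by rw [smul_sub, smul_sub]; abel
  have v1 := h.nb_smul d m a' n1
  have v2 := h.nb_smul d m b' n3'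
  have v3 := h.nb_smul d m c' n1
  have v4 := h.nb_smul d m e' n3'
  refine ⟨a' • η + b' • η', c' • η + e' • η', hA3, ?_, ?_, ?_, ?_⟩
  · rw [s1]; exact h.nb_add d.ne_zero m v1 v2
  · rw [s1, dg_add h hr hd v1 v2, dg_smul h hr hd a' n1, dg_smul h hr hd b' n3', n2, n4,
      mul_zero, add_zero]
  · rw [s2]; exact h.nb_add d.ne_zero m v3 v4
  · rw [s2, dg_add h hr hd v3 v4, dg_smul h hr hd c' n1, dg_smul h hr hd e' n3', n2, n4,
      mul_zero, add_zero]

/-- moving both components -/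
theorem MSt.move2 (hA : MSt π A) (h : LHU K π) (hr : RMap K k r) {d : Kˣ}
    (hd : ‖(d : K)‖ = 1) {g : E (d : K)} {n : GaussianInt} (hg : Gen π d g n)
    (hs : SpanTop r d g n) {ε ε' : E (d : K)} {l m : ℕ} (hl : ε ∈ nb π (d : K) l)
    (hl' : ε' ∈ nb π (d : K) l) (hne : ε ∉ nb π (d : K) (l + 1) ∨ ε' ∉ nb π (d : K) (l + 1))
    (hlm : l + 1 ≤ m) (c c' : k) (hεA : A d (g + ε) ε') :
    ∃ ε₁ ε₁' : E (d : K), A d (g + ε₁) ε₁' ∧ ε₁ - ε ∈ nb π (d : K) m ∧
      dg r π m (ε₁ - ε) = c ∧ ε₁' - ε' ∈ nb π (d : K) m ∧ dg r π m (ε₁' - ε') = c' := by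
  -- the three axes
  have ax1 : ∀ {δ δ' : E (d : K)}, δ ∈ nb π (d : K) l → δ' ∈ nb π (d : K) l →
      δ' ∉ nb π (d : K) (l + 1) → A d (g + δ) δ' → ∀ t : k,
      ∃ ε₁ ε₁' : E (d : K), A d (g + ε₁) ε₁' ∧ ε₁ - δ ∈ nb π (d : K) m ∧
        dg r π m (ε₁ - δ) = t ∧ ε₁' - δ' ∈ nb π (d : K) m ∧ dg r π m (ε₁' - δ') = 0 := by
    intro δ δ' h1 h2 h3 h4 t
    have := hA.move_mat h hr hd hg hs h1 h2 (by omega : l ≤ m) 1 0 0 1 1 0 0 1 (by ring)
      (by ring) (by ring) (by ring) (by simpa using h3) t h4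
    simpa using this
  have ax2 : ∀ {δ δ' : E (d : K)}, δ ∈ nb π (d : K) l → δ' ∈ nb π (d : K) l →
      δ ∉ nb π (d : K) (l + 1) → A d (g + δ) δ' → ∀ t : k,
      ∃ ε₁ ε₁' : E (d : K), A d (g + ε₁) ε₁' ∧ ε₁ - δ ∈ nb π (d : K) m ∧
        dg r π m (ε₁ - δ) = 0 ∧ ε₁' - δ' ∈ nb π (d : K) m ∧ dg r π m (ε₁' - δ') = t := by
    intro δ δ' h1 h2 h3 h4 t
    have h3' : (-1 : GaussianInt) • δ + (0 : GaussianInt) • δ' ∉ nb π (d : K) (l + 1) := by
      intro h5
      apply h3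
      rw [zero_smul, add_zero, neg_smul, one_smul] at h5
      have h6 := neg_mem_nbh h5
      rwa [neg_neg] at h6
    have := hA.move_mat h hr hd hg hs h1 h2 (by omega : l ≤ m) 0 1 (-1) 0 0 (-1) 1 0 (by ring)
      (by ring) (by ring) (by ring) h3' t h4
    simpa using this
  have ax3 : ∀ {δ δ' : E (d : K)}, δ ∈ nb π (d : K) l → δ' ∈ nb π (d : K) l →
      δ' - δ ∉ nb π (d : K) (l + 1) → A d (g + δ) δ' → ∀ t : k,
      ∃ ε₁ ε₁' : E (d : K), A d (g + ε₁) ε₁' ∧ ε₁ - δ ∈ nb π (d : K) m ∧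
        dg r π m (ε₁ - δ) = t ∧ ε₁' - δ' ∈ nb π (d : K) m ∧ dg r π m (ε₁' - δ') = t := by
    intro δ δ' h1 h2 h3 h4 t
    have h3' : (-1 : GaussianInt) • δ + (1 : GaussianInt) • δ' ∉ nb π (d : K) (l + 1) := by
      rw [one_smul, neg_smul, one_smul, neg_add_eq_sub]
      exact h3
    have := hA.move_mat h hr hd hg hs h1 h2 (by omega : l ≤ m) 1 0 (-1) 1 1 0 1 1 (by ring)
      (by ring) (by ring) (by ring) h3' t h4
    simpa using this
  -- after a move the levels are unchanged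
  have stay : ∀ {δ δ₁ : E (d : K)}, δ ∈ nb π (d : K) l → δ₁ - δ ∈ nb π (d : K) m →
      δ₁ ∈ nb π (d : K) l := by
    intro δ δ₁ h1 h2
    have := h.nb_add d.ne_zero l (h.move_mono (by omega) h2) h1
    rwa [sub_add_cancel] at this
  have stay' : ∀ {δ δ₁ : E (d : K)}, δ ∉ nb π (d : K) (l + 1) → δ₁ - δ ∈ nb π (d : K) m →
      δ₁ ∉ nb π (d : K) (l + 1) := by
    intro δ δ₁ h1 h2 h3
    apply h1
    have h4 := neg_mem_nbh (h.move_mono hlm h2)
    have := h.nb_add d.ne_zero (l + 1) h4 h3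
    rwa [neg_sub, sub_add_cancel] at this
  -- composition of two moves
  have comp : ∀ {δ δ₁ δ₂ : E (d : K)} {x y : k}, δ₁ - δ ∈ nb π (d : K) m →
      dg r π m (δ₁ - δ) = x → δ₂ - δ₁ ∈ nb π (d : K) m → dg r π m (δ₂ - δ₁) = y →
      δ₂ - δ ∈ nb π (d : K) m ∧ dg r π m (δ₂ - δ) = x + y := by
    intro δ δ₁ δ₂ x y h1 h2 h3 h4
    have e1 : δ₂ - δ = (δ₁ - δ) + (δ₂ - δ₁) := by abel
    rw [e1, dg_add h hr hd h1 h3, h2, h4]
    exact ⟨h.nb_add d.ne_zero m h1 h3, rfl⟩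
  by_cases y1 : ε ∈ nb π (d : K) (l + 1)
  · have y2 : ε' ∉ nb π (d : K) (l + 1) := hne.resolve_left (not_not.2 y1)
    have y3 : ε' - ε ∉ nb π (d : K) (l + 1) := by
      intro h5
      apply y2
      have := h.nb_add d.ne_zero (l + 1) h5 y1
      rwa [sub_add_cancel] at this
    obtain ⟨δ, δ', a1, a2, a3, a4, a5⟩ := ax3 hl hl' y3 hεA c'
    obtain ⟨η, η', b1, b2, b3, b4, b5⟩ :=
      ax1 (stay hl a2) (stay hl' a4) (stay' y2 a4) a1 (c - c')
    obtain ⟨c1, c2⟩ := comp a2 a3 b2 b3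
    obtain ⟨c3, c4⟩ := comp a4 a5 b4 b5
    exact ⟨η, η', b1, c1, by rw [c2]; ring, c3, by rw [c4]; ring⟩
  · by_cases y2 : ε' ∈ nb π (d : K) (l + 1)
    · have y3 : ε' - ε ∉ nb π (d : K) (l + 1) := by
        intro h5
        apply y1
        have := h.nb_add d.ne_zero (l + 1) (neg_mem_nbh h5) y2
        rwa [neg_sub, sub_add_cancel] at this
      obtain ⟨δ, δ', a1, a2, a3, a4, a5⟩ := ax3 hl hl' y3 hεA c
      obtain ⟨η, η', b1, b2, b3, b4, b5⟩ :=
        ax2 (stay hl a2) (stay hl' a4) (stay' y1 a2) a1 (c' - c)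
      obtain ⟨c1, c2⟩ := comp a2 a3 b2 b3
      obtain ⟨c3, c4⟩ := comp a4 a5 b4 b5
      exact ⟨η, η', b1, c1, by rw [c2]; ring, c3, by rw [c4]; ring⟩
    · obtain ⟨δ, δ', a1, a2, a3, a4, a5⟩ := ax1 hl hl' y2 hεA c
      obtain ⟨η, η', b1, b2, b3, b4, b5⟩ :=
        ax2 (stay hl a2) (stay hl' a4) (stay' y1 a2) a1 c'
      obtain ⟨c1, c2⟩ := comp a2 a3 b2 b3
      obtain ⟨c3, c4⟩ := comp a4 a5 b4 b5
      exact ⟨η, η', b1, c1, by rw [c2]; ring, c3, by rw [c4]; ring⟩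

end MOVE2

end GWA
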